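import Pool.Agent.H2.KM.Targets
import Pool.Agent.H64.NLW.Uncond

/-!
# Row CPR: the sign conjecture in terms of the ranks
-/

set_option autoImplicit false

open Matrix Pool.Agent.H2.NL Pool.Agent.H64.CC

namespace Pool.Agent.H36.KM

open Pool.Agent.H2.KM Pool.Agent.H64.NLW

private theorem idem_lin {K : Type} [Field K] {n : ℕ} (x : Matrix (Fin n) (Fin n) K)
    (hx : x * x = x) : IsIdempotentElem (Matrix.toLin' x) := by
  show Matrix.toLin' x * Matrix.toLin' x = Matrix.toLin' x
  have h := Matrix.toLin'_mul x x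
  rw [hx] at h
  exact h.symm

/-- the rank of an idempotent matrix is its trace -/
private theorem idem_rank {K : Type} [Field K] {n : ℕ} (x : Matrix (Fin n) (Fin n) K)
    (hx : x * x = x) : x.trace = (x.rank : K) := by
  have h2 := (LinearMap.IsIdempotentElem.isProj_range _ (idem_lin x hx)).trace
  rw [Matrix.trace_toLin'_eq] at h2
  rw [h2]
  rfl

private theorem idem_zero {K : Type} [Field K] [CharZero K] {n : ℕ}
    (x : Matrix (Fin n) (Fin n) K) (hx : x * x = x) (h : x.trace = 0) : x = 0 := by
  have h1 : Matrix.toLin' x = 0 := by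
    apply LinearMap.IsIdempotentElem.eq_zero_of_trace_eq_zero (idem_lin x hx)
    rw [Matrix.trace_toLin'_eq]
    exact h
  exact (map_eq_zero_iff _ (Matrix.toLin' (R := K)).injective).1 h1

theorem pf_CPR (h : T_CPL) : T_CPR := by
  intro K _ _ W hW V L hL r m T S ε hε hid hvan hnum b hb
  set E : W.Hom T T := W.even T with hE
  set ρ : W.Hom T T := 1 - ε with hρ
  have hE2 : E * E = E := even_even W T
  have hcε : E * ε = ε * E := even_comm W ε 0 (hW.calculus.cyc_deg T T 0 ε hε)
  have hcρ : E * ρ = ρ * E := by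
    rw [hρ, mul_sub, sub_mul, hcε, mul_one, one_mul]
  have hρ2 : ρ * ρ = ρ := by
    rw [hρ, mul_sub, mul_one, sub_mul, one_mul, hid, sub_self, sub_zero]
  have hst : W.str ρ = 2 * (E * ρ).trace - ρ.trace := str_eq_two W ρ
  rw [hb, idem_rank ρ hρ2] at hst
  constructor
  · intro hC
    have hEk : ∀ u, W.Vanishing S.toGenericIntersection u → W.ap E u = 0 := by
      intro u hu
      funext a
      show (E *ᵥ u) a = 0
      have h1 : (E *ᵥ u) a = (if Even (W.deg T a) then (1 : K) else 0) * u a :=
        Matrix.mulVec_diagonal _ _ _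
      rw [h1]
      by_cases hu0 : u a = 0
      · rw [hu0, mul_zero]
      · have h2 := hu.1 a hu0
        have h3 : ¬ Even (W.deg T a) := by
          rw [h2]
          exact Nat.not_even_iff_odd.2 S.odd
        rw [if_neg h3, zero_mul]
    have h1 := hnum E hC hEk
    have h2 : W.str (E * ρ) = (E * ρ).trace := str_even W ρ
    rw [h2] at h1
    rw [h1, mul_zero, zero_sub, neg_inj] at hst
    exact_mod_cast hst.symm
  · intro hr
    rw [hr] at hst
    have h1 : (E * ρ).trace = 0 := by
      have h2 : (2 : K) * (E * ρ).trace = 0 := by linear_combination -hst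
      rcases mul_eq_zero.1 h2 with h3 | h3
      · exact absurd h3 two_ne_zero
      · exact h3
    have h2 : (E * ρ) * (E * ρ) = E * ρ := by
      calc (E * ρ) * (E * ρ) = E * (ρ * E) * ρ := by simp only [Matrix.mul_assoc]
        _ = E * (E * ρ) * ρ := by rw [hcρ]
        _ = (E * E) * (ρ * ρ) := by simp only [Matrix.mul_assoc]
        _ = E * ρ := by rw [hE2, hρ2]
    have h3 : E * ρ = 0 := idem_zero _ h2 h1
    refine h K W hW V L hL r m T S ε hε hvan ?_
    intro a b' hab
    by_contra hodd
    have h4 : (E * ρ) a b' = (if Even (W.deg T a) then (1 : K) else 0) * ρ a b' := by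
      rw [hE]
      exact Matrix.diagonal_mul _ _ _ _
    rw [h3, if_pos (Nat.not_odd_iff_even.1 hodd), one_mul] at h4
    exact hab h4.symm

end Pool.Agent.H36.KM
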