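import Pool.Agent.H2.KM.Targets

/-!
# Row NTN: the lower super-symmetric powers are not numerically trivial
-/

set_option autoImplicit false

open Matrix Pool.Agent.H2.NL Pool.Agent.H64.CC

namespace Pool.Agent.H36.KM

open Pool.Agent.H2.KM

section aux

variable {K : Type} [Field K]

private theorem zip_ne {I J : Type} (j : Matrix I J K) (o : I → Bool) (o' : J → Bool)
    (h : ∀ a b, j a b ≠ 0 → o a = o' b) : ∀ (u : List I) (v : List J), u.length = v.length →
    (List.zipWith (fun a b => j a b) u v).prod ≠ 0 → sgw K o u = sgw K o' v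
  | [], [], _, _ => rfl
  | a :: u, b :: v, hl, hp => by
    rw [List.zipWith_cons_cons, List.prod_cons] at hp
    have h1 := left_ne_zero_of_mul hp
    have h2 := right_ne_zero_of_mul hp
    have h3 := zip_ne j o o' h u v (by simpa using hl) h2
    unfold sgw at h3 ⊢
    rw [List.map_cons, List.prod_cons, List.map_cons, List.prod_cons, h a b h1, h3]

private theorem str_cyc {A B : Type} [Fintype A] [Fintype B] (s : A → K) (s' : B → K)
    (X : Matrix A B K) (Y : Matrix B A K) (hY : ∀ b a, Y b a ≠ 0 → s' b = s a) :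
    ∑ a, s a * (X * Y) a a = ∑ b, s' b * (Y * X) b b := by
  simp only [Matrix.mul_apply, Finset.mul_sum]
  rw [Finset.sum_comm]
  refine Finset.sum_congr rfl fun b _ => Finset.sum_congr rfl fun a _ => ?_
  by_cases h : Y b a = 0
  · rw [h]; ring
  · rw [hY b a h]; ring

private theorem sg_par [CharZero K] (W : Weil K) {m : ℕ} (T : W.Var m) (a : Fin (W.rk T)) :
    (-1 : K) ^ (W.deg T a) = sg K (W.par T a) := by
  unfold sg Weil.par
  by_cases h : Odd (W.deg T a)
  · rw [h.neg_one_pow, if_pos (decide_eq_true h)]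
  · rw [(Nat.not_odd_iff_even.1 h).neg_one_pow, if_neg]
    rw [decide_eq_false h]; exact Bool.false_ne_true

private theorem sgw_par [CharZero K] (W : Weil K) {m : ℕ} (T : W.Var m) :
    ∀ w : List (Fin (W.rk T)), (-1 : K) ^ ((w.map (W.deg T)).sum) = sgw K (W.par T) w
  | [] => by simp [sgw]
  | a :: w => by
    have ih := sgw_par W T w
    rw [List.map_cons, List.sum_cons, pow_add, sg_par, ih]
    unfold sgw
    rw [List.map_cons, List.prod_cons]

end aux

theorem pf_NTN (h1 : T_SPJ) (h2 : T_SPT) : T_NTN := by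
  intro K _ _ W hW m T P ρ hρ hρρ U n n' D
  have hpar : ∀ b a, D.i b a ≠ 0 → D.F.o b = W.par T a := by
    intro x y hxy
    rw [D.o_eq x, D.i_deg x y hxy]
    rfl
  refine ⟨?_, ?_⟩
  · have e1 : W.str ρ = ∑ a, sg K (W.par T a) * (D.j * D.i) a a := by
      unfold Weil.str
      rw [D.ji]
      exact Finset.sum_congr rfl fun a _ => by rw [sg_par]
    rw [e1, str_cyc (fun a => sg K (W.par T a)) (fun b => sg K (D.F.o b)) D.j D.i
      (fun b a hba => by rw [hpar b a hba]), D.ij]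
    unfold Form.sd
    refine Finset.sum_congr rfl fun b _ => ?_
    rw [Matrix.one_apply_eq, mul_one]
  · intro N b hsd hNb hnt
    have e1 := hnt (W.id (P.pow N)) (hW.calculus.one_mem _)
    have e2 : W.comp (W.id (P.pow N)) (P.symPow ρ N) = P.symPow ρ N := one_mul _
    rw [e2] at e1
    -- the words
    obtain ⟨σ, hσ⟩ : ∃ σ : Fin (W.rk (P.pow N)) ≃ List.Vector (Fin (W.rk T)) N,
        ∀ a, (σ a).1 = P.word N a := by
      refine ⟨Equiv.ofBijective (fun a => ⟨P.word N a, (P.word_range N _).1 ⟨a, rfl⟩⟩)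
        ⟨fun a b h => P.word_inj N (congrArg Subtype.val h), fun v => ?_⟩, fun a => rfl⟩
      obtain ⟨a, ha⟩ := (P.word_range N v.1).2 v.2
      exact ⟨a, Subtype.ext ha⟩
    have e3 : W.str (P.symPow ρ N) = ∑ u : List.Vector (Fin (W.rk T)) N,
        sgw K (W.par T) u.1 * (Sp (W.par T) ρ N) u u := by
      rw [← Equiv.sum_comp σ (fun u => sgw K (W.par T) u.1 * (Sp (W.par T) ρ N) u u)]
      unfold Weil.str
      refine Finset.sum_congr rfl fun a _ => ?_
      rw [P.word_deg, sgw_par, hσ]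
      show _ = sgw K (W.par T) (P.word N a) * sp (W.par T) ρ (σ a).1 (σ a).1
      rw [hσ]
      rfl
    obtain ⟨S', hS'⟩ : ∃ S', S' = Sp D.F.o (1 : Matrix (Fin n ⊕ Fin n') (Fin n ⊕ Fin n') K) N :=
      ⟨_, rfl⟩
    have e4 : Sp (W.par T) ρ N = (Jm D.j N * S') * Jm D.i N := by
      have f1 := (h1 K (Fin (W.rk T)) (Fin n ⊕ Fin n') (Fin (W.rk T)) N).1 (W.par T) D.j D.i
      have f2 := (h1 K (Fin n ⊕ Fin n') (Fin n ⊕ Fin n') (Fin (W.rk T)) N).2 D.F.o (W.par T)
        (1 : Matrix (Fin n ⊕ Fin n') (Fin n ⊕ Fin n') K) D.i hpar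
      rw [Matrix.one_mul] at f2
      rw [D.ji] at f1
      rw [← f1, ← f2, hS', Matrix.mul_assoc]
    have e5 : Jm D.i N * (Jm D.j N * S') = S' := by
      have f1 := (h1 K (Fin (W.rk T)) (Fin n ⊕ Fin n') (Fin n ⊕ Fin n') N).1 D.F.o D.j
        (1 : Matrix (Fin n ⊕ Fin n') (Fin n ⊕ Fin n') K)
      have f2 := (h1 K (Fin n ⊕ Fin n') (Fin (W.rk T)) (Fin n ⊕ Fin n') N).1 D.F.o D.i
        (D.j * (1 : Matrix (Fin n ⊕ Fin n') (Fin n ⊕ Fin n') K))
      rw [Matrix.mul_one] at f1 f2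
      rw [hS', f1, f2, D.ij]
    rw [e3, e4, str_cyc (fun u : List.Vector (Fin (W.rk T)) N => sgw K (W.par T) u.1)
      (fun u : List.Vector (Fin n ⊕ Fin n') N => sgw K D.F.o u.1) (Jm D.j N * S') (Jm D.i N)
      (fun b a hba => zip_ne D.i D.F.o (W.par T) hpar b.1 a.1 (b.2.trans a.2.symm) hba), e5,
      hS'] at e1
    have e6 := h2 K (Fin n ⊕ Fin n') D.F.o N
    have e7 : ∏ k ∈ Finset.range N, ((∑ a, sg K (D.F.o a)) + (k : K)) = 0 := by
      rw [← e6]
      exact e1
    obtain ⟨k, hk, hk0⟩ := Finset.prod_eq_zero_iff.1 e7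
    have hk1 := Finset.mem_range.1 hk
    have e8 : ∑ a, sg K (D.F.o a) = -(b : K) := hsd
    rw [e8] at hk0
    have e9 : (k : K) = (b : K) := by linear_combination hk0
    have e10 : k = b := by exact_mod_cast e9
    omega

end Pool.Agent.H36.KM
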